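import Pool.Agent.Helper84.Kos.Goals

set_option autoImplicit false

namespace Pool.Agent.Helper8.Kos

open LieAlgebra Pool.Agent.Helper84.Kos

section sandwich

variable {L : Type} [LieRing L] [LieAlgebra ℚ L]

theorem ad_lie (x y : L) : ad ℚ L ⁅x, y⁆ = ad ℚ L x * ad ℚ L y - ad ℚ L y * ad ℚ L x := by
  ext z
  simp only [LinearMap.sub_apply, Module.End.mul_apply, LieAlgebra.ad_apply]
  exact lie_lie x y z

theorem sandwich_mid {c : L} (hc : ad ℚ L c ^ 2 = 0) (x : L) :
    ad ℚ L c * ad ℚ L x * ad ℚ L c = 0 := by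
  have hcc : ad ℚ L c * ad ℚ L c = 0 := by rw [← sq]; exact hc
  have h1 : ⁅c, ⁅c, x⁆⁆ = 0 := by
    have := congrArg (fun f : Module.End ℚ L => f x) hcc
    simpa [Module.End.mul_apply] using this
  have h2 : ad ℚ L ⁅c, ⁅c, x⁆⁆ = 0 := by rw [h1]; exact map_zero _
  rw [ad_lie, ad_lie] at h2
  have h3 : ad ℚ L c * (ad ℚ L c * ad ℚ L x - ad ℚ L x * ad ℚ L c) -
      (ad ℚ L c * ad ℚ L x - ad ℚ L x * ad ℚ L c) * ad ℚ L c =
      (ad ℚ L c * ad ℚ L c) * ad ℚ L x + ad ℚ L x * (ad ℚ L c * ad ℚ L c) -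
        (2 : ℚ) • (ad ℚ L c * ad ℚ L x * ad ℚ L c) := by
    rw [two_smul]
    noncomm_ring
  rw [h3, hcc, zero_mul, mul_zero, zero_add, zero_sub, neg_eq_zero] at h2
  exact (smul_eq_zero.mp h2).resolve_left (by norm_num)

theorem sandwich_lie {c d : L} (hc : ad ℚ L c ^ 2 = 0) (hd : ad ℚ L d ^ 2 = 0) :
    ad ℚ L ⁅c, d⁆ ^ 2 = 0 := by
  have hcc : ad ℚ L c * ad ℚ L c = 0 := by rw [← sq]; exact hc
  have hdd : ad ℚ L d * ad ℚ L d = 0 := by rw [← sq]; exact hd
  have h1 := sandwich_mid hc d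
  have h2 := sandwich_mid hd c
  rw [ad_lie, sq]
  calc (ad ℚ L c * ad ℚ L d - ad ℚ L d * ad ℚ L c) * (ad ℚ L c * ad ℚ L d - ad ℚ L d * ad ℚ L c)
      = (ad ℚ L c * ad ℚ L d * ad ℚ L c) * ad ℚ L d
        - ad ℚ L c * (ad ℚ L d * ad ℚ L d) * ad ℚ L c
        - ad ℚ L d * (ad ℚ L c * ad ℚ L c) * ad ℚ L d
        + (ad ℚ L d * ad ℚ L c * ad ℚ L d) * ad ℚ L c := by noncomm_ring
    _ = 0 := by rw [h1, h2, hcc, hdd]; simp

end sandwich

theorem stmtT1 (h : StmtT1b) : StmtT1 := by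
  intro L _ _ S hS hc
  obtain ⟨r, s, -, hs⟩ := hS.fin_param
  obtain ⟨n, hn⟩ := h L (Fin r) s {c | ad ℚ L c ^ 2 = 0}
    (fun a => hc _ (hs ▸ Set.mem_range_self a))
    (fun c hc d hd => sandwich_lie hc hd)
    (fun c hc => by rw [← sq]; exact hc)
    (fun c hc x => sandwich_mid hc x)
  set op : List (Fin r) → Module.End ℚ L := fun w => (w.map (fun a => ad ℚ L (s a))).prod with hop
  have hopc : ∀ a w (x : L), op (a :: w) x = ⁅s a, op w x⁆ := by
    intro a w x
    simp only [hop, List.map_cons, List.prod_cons, Module.End.mul_apply]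
    rfl
  have hopn : ∀ x : L, op [] x = x := by
    intro x
    simp [hop]
  set G : Set L := {y | ∃ w a, y = op w (s a)} with hG
  have hGfin : G.Finite := by
    have h1 : ({w : List (Fin r) | w.length < n} ×ˢ (Set.univ : Set (Fin r))).Finite :=
      (List.finite_length_lt (Fin r) n).prod Set.finite_univ
    refine ((h1.image (fun p => op p.1 (s p.2))).union (Set.finite_singleton (0 : L))).subset ?_
    rintro y ⟨w, a, rfl⟩
    by_cases hw : w.length < n
    · left
      exact ⟨(w, a), ⟨hw, trivial⟩, rfl⟩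
    · right
      rw [Set.mem_singleton_iff]
      have : op w = 0 := hn w (not_lt.mp hw)
      rw [this, LinearMap.zero_apply]
  set W : Submodule ℚ L := Submodule.span ℚ G with hW
  have hstab : ∀ a, ∀ y ∈ W, ⁅s a, y⁆ ∈ W := by
    intro a y hy
    induction hy using Submodule.span_induction with
    | mem y hy =>
      obtain ⟨w, b, rfl⟩ := hy
      rw [← hopc]
      exact Submodule.subset_span ⟨_, _, rfl⟩
    | zero => rw [lie_zero]; exact W.zero_mem
    | add x y _ _ hx hy => rw [lie_add]; exact W.add_mem hx hy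
    | smul t x _ hx => rw [lie_smul]; exact W.smul_mem t hx
  have hgen : ∀ w a, ∀ y ∈ W, ⁅op w (s a), y⁆ ∈ W := by
    intro w
    induction w with
    | nil =>
      intro a y hy
      rw [hopn]
      exact hstab a y hy
    | cons a' w ih =>
      intro a y hy
      rw [hopc, lie_lie]
      exact W.sub_mem (hstab _ _ (ih a y hy)) (ih a _ (hstab _ _ hy))
  have hlie : ∀ z ∈ W, ∀ y ∈ W, ⁅z, y⁆ ∈ W := by
    intro z hz y hy
    induction hz using Submodule.span_induction with
    | mem z hz =>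
      obtain ⟨w, b, rfl⟩ := hz
      exact hgen w b y hy
    | zero => rw [zero_lie]; exact W.zero_mem
    | add x z _ _ hx hz => rw [add_lie]; exact W.add_mem hx hz
    | smul t x _ hx => rw [smul_lie]; exact W.smul_mem t hx
  let K : LieSubalgebra ℚ L := { W with lie_mem' := fun {x y} hx hy => hlie x hx y hy }
  have hSK : LieSubalgebra.lieSpan ℚ L S ≤ K := by
    rw [LieSubalgebra.lieSpan_le]
    intro x hx
    rw [← hs] at hx
    obtain ⟨a, rfl⟩ := hx
    exact Submodule.subset_span ⟨[], a, (hopn _).symm⟩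
  have hWfin : FiniteDimensional ℚ W := FiniteDimensional.span_of_finite ℚ hGfin
  exact Submodule.finiteDimensional_of_le (S₁ := (LieSubalgebra.lieSpan ℚ L S).toSubmodule)
    (S₂ := W) hSK

end Pool.Agent.Helper8.Kos
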