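import Pool.Agent.Helper84.Kos.Goals

set_option autoImplicit false

namespace Pool.Agent.Helper8.Kos

open LieAlgebra Pool.Agent.Helper84.Kos

theorem stmtT23 (h2 : StmtT2) (h3 : StmtT3) : StmtT23 := by
  classical
  intro L _ _ k hk ⟨a₀, ha₀⟩
  have hex : ∃ m : ℕ, ∃ a : L, a ≠ 0 ∧ ad ℚ L a ^ m = 0 := ⟨k, a₀, ha₀, hk a₀⟩
  obtain ⟨a, ha, ham⟩ := Nat.find_spec hex
  have hmin := fun m (hm : m < Nat.find hex) => Nat.find_min hex hm
  set m := Nat.find hex with hm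
  have hm3 : m ≤ 3 := by
    by_contra h4
    push Not at h4
    have hne : ad ℚ L a ^ (m - 1) ≠ 0 := by
      intro h0
      exact hmin (m - 1) (by omega) ⟨a, ha, h0⟩
    obtain ⟨x, hx⟩ : ∃ x, (ad ℚ L a ^ (m - 1)) x ≠ 0 := by
      by_contra hcon
      push Not at hcon
      exact hne (LinearMap.ext hcon)
    exact hmin (m - 1) (by omega) ⟨_, hx, h2 L a x m (by omega) ham⟩
  exact h3 L k hk a ha (pow_eq_zero_of_le hm3 ham)

end Pool.Agent.Helper8.Kos
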