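import Pool.Agent.Helper84.Kos.Goals

set_option autoImplicit false

namespace Pool.Agent.Helper8.Kos

open LieAlgebra Pool.Agent.Helper84.Kos

/-- If a polynomial function `t ↦ ∑ t^i v_i` takes values in a subspace, its coefficients lie in
the subspace. -/
theorem coeff_mem_of_forall {V : Type*} [AddCommGroup V] [Module ℚ V] (S : Submodule ℚ V)
    (k : ℕ) (v : ℕ → V) (h : ∀ t : ℚ, ∑ i ∈ Finset.range k, t ^ i • v i ∈ S) :
    ∀ i < k, v i ∈ S := by
  intro i hi
  rw [← Submodule.Quotient.mk_eq_zero]
  rw [← Module.forall_dual_apply_eq_zero_iff ℚ]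
  intro φ
  set p : Polynomial ℚ := ∑ j ∈ Finset.range k,
    Polynomial.monomial j (φ (Submodule.Quotient.mk (v j))) with hp
  have hp0 : p = 0 := by
    apply Polynomial.funext
    intro t
    have h1 := (Submodule.Quotient.mk_eq_zero S).mpr (h t)
    have h2 := congrArg φ h1
    rw [map_zero] at h2
    rw [hp, Polynomial.eval_finsetSum, Polynomial.eval_zero, ← h2]
    have h3 : (Submodule.Quotient.mk (∑ i ∈ Finset.range k, t ^ i • v i) : V ⧸ S) =
        ∑ i ∈ Finset.range k, t ^ i • (Submodule.Quotient.mk (v i) : V ⧸ S) := by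
      rw [← Submodule.mkQ_apply, map_sum]
      rfl
    rw [h3, map_sum]
    refine Finset.sum_congr rfl fun j _ => ?_
    rw [Polynomial.eval_monomial, map_smul, smul_eq_mul, mul_comm]
  have h4 := congrArg (fun q : Polynomial ℚ => q.coeff i) hp0
  simp only [hp, Polynomial.finsetSum_coeff, Polynomial.coeff_monomial,
    Polynomial.coeff_zero] at h4
  rw [Finset.sum_ite_eq' (Finset.range k) i] at h4
  simpa [hi] using h4

theorem stmtT5 : StmtT5 := by
  intro L _ _ k hk c hc x
  set S := Submodule.span ℚ {d : L | ad ℚ L d ^ 2 = 0} with hS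
  have hcc : ∀ z : L, ⁅c, ⁅c, z⁆⁆ = 0 := by
    intro z
    have := congrArg (fun f : Module.End ℚ L => f z) hc
    simpa [sq, Module.End.mul_apply] using this
  have key : ∀ t : ℚ, ∑ i ∈ Finset.range (k + 2),
      t ^ i • (((i.factorial : ℚ)⁻¹) • ((ad ℚ L x) ^ i) c) ∈ S := by
    intro t
    set D : LieDerivation ℚ L L := LieDerivation.inner ℚ L L (-(t • x)) with hD
    have hDl : D.toLinearMap = t • ad ℚ L x := by
      ext z
      simp only [hD, LieDerivation.inner_apply_apply,
        LieDerivation.coeFn_coe, LinearMap.smul_apply, ad_apply, lie_neg, lie_smul]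
      rw [← lie_skew x z, smul_neg]
    have hpow : D.toLinearMap ^ (k + 2) = 0 := by
      rw [hDl, smul_pow, pow_eq_zero_of_le (by omega : k ≤ k + 2) (hk x), smul_zero]
    have hnil : IsNilpotent D.toLinearMap := ⟨k + 2, hpow⟩
    set e := LieDerivation.exp D hnil with he
    have h1 : e c = ∑ i ∈ Finset.range (k + 2),
        t ^ i • (((i.factorial : ℚ)⁻¹) • ((ad ℚ L x) ^ i) c) := by
      rw [he, LieDerivation.exp_map_apply, IsNilpotent.exp_eq_sum hpow, LinearMap.sum_apply]
      refine Finset.sum_congr rfl fun i _ => ?_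
      rw [hDl, smul_pow, LinearMap.smul_apply, LinearMap.smul_apply, smul_comm]
    rw [← h1]
    apply Submodule.subset_span
    change ad ℚ L (e c) ^ 2 = 0
    ext y
    rw [sq, Module.End.mul_apply, ad_apply, ad_apply, LinearMap.zero_apply]
    obtain ⟨z, hz⟩ := e.surjective y
    have hz' : e z = y := hz
    rw [← hz', ← LieEquiv.map_lie, ← LieEquiv.map_lie, hcc]
    exact map_zero _
  have h1 := coeff_mem_of_forall S (k + 2) _ key 1 (by omega)
  simpa using h1

end Pool.Agent.Helper8.Kos
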