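import Pool.Agent.Helper84.Kos.Goals

set_option autoImplicit false

namespace Pool.Agent.Helper8.Kos

open LieAlgebra Pool.Agent.Helper84.Kos

section pi

variable {L : ℕ → Type} [∀ c, LieRing (L c)]

/-- The product of a family of Lie rings. -/
@[reducible] def piLieRing : LieRing (∀ c, L c) where
  bracket x y := fun c => ⁅x c, y c⁆
  add_lie x y z := by funext c; exact add_lie _ _ _
  lie_add x y z := by funext c; exact lie_add _ _ _
  lie_self x := by funext c; exact lie_self _
  leibniz_lie x y z := by funext c; exact leibniz_lie _ _ _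

attribute [local instance] piLieRing

theorem pi_lie_apply (x y : ∀ c, L c) (c : ℕ) : ⁅x, y⁆ c = ⁅x c, y c⁆ := rfl

variable [∀ c, LieAlgebra ℚ (L c)]

/-- The product of a family of Lie algebras. -/
@[reducible] def piLieAlgebra : LieAlgebra ℚ (∀ c, L c) where
  lie_smul t x y := by funext c; exact lie_smul _ _ _

attribute [local instance] piLieAlgebra

/-- The evaluation homomorphism. -/
def evalHom (c : ℕ) : (∀ c, L c) →ₗ⁅ℚ⁆ L c where
  toFun x := x c
  map_add' _ _ := rfl
  map_smul' _ _ := rfl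
  map_lie' := rfl

theorem pi_ad_pow (x y : ∀ c, L c) (k c : ℕ) :
    ((ad ℚ (∀ c, L c) x ^ k) y) c = (ad ℚ (L c) (x c) ^ k) (y c) := by
  induction k with
  | zero => rfl
  | succ k ih =>
    rw [pow_succ', pow_succ', Module.End.mul_apply, Module.End.mul_apply, ad_apply, ad_apply,
      pi_lie_apply, ih]

end pi

theorem sub_ad_pow {P : Type} [LieRing P] [LieAlgebra ℚ P] (V : LieSubalgebra ℚ P) (x y : V)
    (k : ℕ) : (((ad ℚ V x ^ k) y : V) : P) = (ad ℚ P x ^ k) y := by
  induction k with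
  | zero => rfl
  | succ k ih =>
    rw [pow_succ', pow_succ', Module.End.mul_apply, Module.End.mul_apply, ad_apply, ad_apply,
      LieSubalgebra.coe_bracket, ih]

theorem lieSpan_sub_eq_top {P : Type} [LieRing P] [LieAlgebra ℚ P] (S : Set P) :
    LieSubalgebra.lieSpan ℚ (LieSubalgebra.lieSpan ℚ P S)
      ((fun v : LieSubalgebra.lieSpan ℚ P S => (v : P)) ⁻¹' S) = ⊤ := by
  set V := LieSubalgebra.lieSpan ℚ P S with hV
  set K := LieSubalgebra.lieSpan ℚ V ((fun v : V => (v : P)) ⁻¹' S) with hK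
  have h1 : V ≤ K.map V.incl := by
    refine LieSubalgebra.lieSpan_le.mpr ?_
    intro x hx
    refine ⟨⟨x, LieSubalgebra.subset_lieSpan hx⟩, ?_, rfl⟩
    exact LieSubalgebra.subset_lieSpan (by exact hx)
  rw [eq_top_iff]
  intro v _
  obtain ⟨w, hw, hwv⟩ := h1 v.2
  have : w = v := Subtype.ext hwv
  rw [← this]
  exact hw

attribute [local instance] piLieRing piLieAlgebra in
theorem stmtUniform (h : StmtMain) : StmtUniform := by
  intro k
  by_contra hcon
  push Not at hcon
  choose L i1 i2 hk a b hab hne using hcon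
  set V : LieSubalgebra ℚ (∀ c, L c) := LieSubalgebra.lieSpan ℚ (∀ c, L c) {a, b} with hV
  have hEngel : ∀ x : V, ad ℚ V x ^ k = 0 := by
    intro x
    apply LinearMap.ext
    intro y
    apply Subtype.ext
    rw [sub_ad_pow]
    funext c
    rw [pi_ad_pow, hk]
    rfl
  have hfg : ∃ S : Set V, S.Finite ∧ LieSubalgebra.lieSpan ℚ V S = ⊤ := by
    refine ⟨(fun v : V => (v : ∀ c, L c)) ⁻¹' {a, b}, ?_, lieSpan_sub_eq_top {a, b}⟩
    exact (Set.toFinite {a, b}).preimage Subtype.val_injective.injOn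
  have hfin : Module.Finite ℚ V := h V k hEngel hfg
  have hnil : LieRing.IsNilpotent V :=
    (LieAlgebra.isNilpotent_iff_forall (R := ℚ) (L := V)).mpr fun x => ⟨k, hEngel x⟩
  obtain ⟨n, hn⟩ := (LieModule.isNilpotent_iff ℚ V V).mp hnil
  let f : V →ₗ⁅ℚ⁆ L n := (evalHom n).comp V.incl
  have hf : Function.Surjective f := by
    rw [← LieHom.range_eq_top, eq_top_iff, ← hab n, LieSubalgebra.lieSpan_le]
    rintro x (rfl | rfl)
    · exact ⟨⟨a, LieSubalgebra.subset_lieSpan (by simp)⟩, rfl⟩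
    · exact ⟨⟨b, LieSubalgebra.subset_lieSpan (by simp)⟩, rfl⟩
  apply hne n
  rw [← LieIdeal.lowerCentralSeries_map_eq n hf, hn]
  exact LieIdeal.map_eq_bot_iff.mpr bot_le

end Pool.Agent.Helper8.Kos
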